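import Pool.Agent.Helper92.ZH.Goals

/-!
# Project T3 (MP_a41896_nt), packet T3-IXH: the index
-/

set_option autoImplicit false

open MvPolynomial

namespace Pool.Agent.Helper92.ZH.IXH

open Pool.Agent.Helper29.BL Pool.Agent.Helper92.Ru Pool.Agent.Helper42.SG
open Pool.Agent.Helper68.VN Pool.Agent.Helper92.ZH

theorem t (hT : TAYX) (hQ : QIXB) : Pool.Agent.Helper92.ZH.IXH := by
  classical
  intro K _ _ σ _ _ W i' g2 ξ ψ X Ψ Q f g d θ hTay hψ hd hdeg he hf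
  obtain ⟨B, -, hB⟩ := hT K σ W
  obtain ⟨X', Ψ', hT', -⟩ := hB 2 ξ ψ hψ
  refine hQ K σ W 2 ξ ψ X' Ψ' Q f g d θ hT' (fun j i => (hψ j i).2) hd ?_ hf
  rw [← he]
  have hv : ((1, i') : Fin 2 × σ) ∉ Q.vars := by
    intro hm
    obtain ⟨m, hm1, hm2⟩ := (mem_vars_iff_mem_support _).1 hm
    have h3 := monomial_le_degreeOf (1, i') hm1
    rw [Finsupp.mem_support_iff] at hm2
    omega
  simp only [aeval_def]
  refine eval₂Hom_congr' rfl (fun h hh _ => ?_) rfl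
  have hne : ((h.1, h.2) : Fin 2 × σ) ≠ (1, i') := fun h' => hv (h' ▸ hh)
  rw [hT'.eqX, hTay.eqX h.1 h.2 hne]

end Pool.Agent.Helper92.ZH.IXH
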