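import Pool.Agent.Helper92.ZH.Goals
import Pool.Agent.Helper60.SG2.NZFT

/-!
# Project T3 (MP_a41896_nt), packet T3-NZF1: one block, finitely many arrays
-/

set_option autoImplicit false

namespace Pool.Agent.Helper92.ZH.NZF1

open WeierstrassCurve
open Pool.Agent.Helper29.BL Pool.Agent.Helper92.Ru Pool.Agent.Helper42.SG
open Pool.Agent.Helper68.VN Pool.Agent.Helper60.SG2 Pool.Agent.Helper92.ZH

/-- the successive choice of the points, any finite type of variables, finitely many arrays -/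
theorem choiceF (Ω : Type) [Field Ω] (V : Type) [Fintype V] (I : V → Type)
    [∀ h, Fintype (I h)] (Pt : V → Type) (w : ∀ h, Pt h → ℤˣ → I h → Ω)
    (hw : ∀ (h : V) (ι : Type) [Finite ι] (a : ι → I h → Ω), (∀ k, a k ≠ 0) →
        ∃ p : Pt h, ∀ (k : ι) (s : ℤˣ), ∑ α : I h, a k α * w h p s α ≠ 0)
    [Fintype (∀ h, I h)] (κ : Type) [Finite κ] (a : κ → (∀ h, I h) → Ω) (ha : ∀ k, a k ≠ 0) :
    ∃ p : ∀ h, Pt h, ∀ (k : κ) (s : V → ℤˣ),
      ∑ α : (∀ h, I h), a k α * ∏ h, w h (p h) (s h) (α h) ≠ 0 := by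
  classical
  let ev := Fintype.equivFin V
  let E : (∀ h, I h) ≃ ∀ k, I (ev.symm k) := Equiv.piCongrLeft' I ev
  obtain ⟨p', hp'⟩ := nzt_choice Ω (Fintype.card V) (fun k => I (ev.symm k))
    (fun k => Pt (ev.symm k)) (fun k => w (ev.symm k))
    (fun k ι _ b hb => hw (ev.symm k) ι b hb) κ (fun c β => a c (E.symm β)) (by
      intro c h0
      apply ha c
      ext α
      have := congrFun h0 (E α)
      simpa using this)
  refine ⟨(Equiv.piCongrLeft' Pt ev).symm p', fun c s => ?_⟩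
  have h1 := hp' c (fun k => s (ev.symm k))
  intro h2
  apply h1
  rw [← h2, ← E.symm.sum_comp]
  refine Finset.sum_congr rfl fun β _ => ?_
  congr 1
  rw [← ev.symm.prod_comp]
  refine Finset.prod_congr rfl fun k _ => ?_
  have e1 : (Equiv.piCongrLeft' Pt ev).symm p' (ev.symm k) = p' k := by
    have := congrFun ((Equiv.piCongrLeft' Pt ev).apply_symm_apply p') k
    rw [Equiv.piCongrLeft'_apply] at this
    exact this
  have e2 : E.symm β (ev.symm k) = β k := by
    have := congrFun (E.apply_symm_apply β) k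
    exact this
  rw [e1, e2]

theorem t (hN : NZV) : Pool.Agent.Helper92.ZH.NZF1 := by
  classical
  intro K _ _ σ _ _ W hW M e Ω _ _ _ X0 Ψ0 h0 ι _ a ha
  have : CharZero Ω := charZero_of_injective_algebraMap (algebraMap K Ω).injective
  have hell : ∀ i, (mapS Ω W i).IsElliptic := fun i => by
    have := hW i
    unfold mapS
    infer_instance
  let Pt : σ → Type := fun i => {x : Ω × Ω // x.2 ^ 2 = Bf (mapS Ω W i) x.1}
  let w : ∀ i : σ, Pt i → ℤˣ → Fin (4 ^ e) × Fin (M + 1) → Ω :=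
    fun i P s α => P.1.1 ^ α.1.val *
        ((law (mapS Ω W i) e false P.1.1 (X0 i)
          (((s : ℤ) : Ω) * P.1.2 * Ψ0 i)).1 ^ (M - α.2.val) *
          (law (mapS Ω W i) e false P.1.1 (X0 i)
          (((s : ℤ) : Ω) * P.1.2 * Ψ0 i)).2 ^ α.2.val)
  obtain ⟨P, hP⟩ := choiceF Ω σ
    (fun _ => Fin (4 ^ e) × Fin (M + 1)) Pt w
    (by
      intro i κ _ a ha
      have := hell i
      obtain ⟨Q, hQ0, hQ1, hQ2⟩ := nzt_pt (mapS Ω W i) (X0 i) (Ψ0 i) (h0 i)
      obtain ⟨P, hP0, hP⟩ := hN Ω (mapS Ω W i) Q e M κ a hQ0 ha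
      refine ⟨⟨(xc P, ps P), nzt_ps _ P hP0⟩, fun k s => ?_⟩
      have h1 := hP k s
      rw [hQ1, hQ2] at h1
      exact h1) ι a ha
  refine ⟨fun i => (P i).1.1, fun i => (P i).1.2, fun i => (P i).2, ?_⟩
  intro k ε
  exact hP k ε

end Pool.Agent.Helper92.ZH.NZF1
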