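import Pool.Agent.Helper92.ZH.Goals
import Pool.Agent.Helper68.T3.GoalsT
import Pool.Agent.Helper60.T3.Defs

/-!
# Project T3 (MP_a41896_nt): the zero estimate ZE3 of helper68 from ZEH and IND
-/

set_option autoImplicit false

open MvPolynomial

namespace Pool.Agent.Helper92.ZH.ZE3

open WeierstrassCurve Height
open Pool.Agent.Helper29.BL Pool.Agent.Helper92.Ru Pool.Agent.Helper42.SG
open Pool.Agent.Helper68.VN
open Pool.Agent.Helper68.T3 (TayW Sup3)
open Pool.Agent.Helper60.HC (Lo)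
open Pool.Agent.Helper92.ZH

theorem lo_mono {K : Type} [Field K] [NumberField K] {σ : Type} {I : Finset σ} {D D' : ℕ}
    {A A' : ℝ} {x : σ → K} (hD : D ≤ D') (hA : A ≤ A') (h : Lo I D A x) : Lo I D' A' x := by
  obtain ⟨g, h1, h2, h3, h4, h5⟩ := h
  exact ⟨g, h1, fun i => (h2 i).trans hD, h3, h4, h5.trans hA⟩

theorem bf_map {K : Type} [Field K] {σ : Type} (W : σ → Affine K) {τ : Type} (i : σ)
    (x : MvPowerSeries τ K) : MvPowerSeries.constantCoeff (Bf (mapS (MvPowerSeries τ K) W i) x) =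
      Bf (W i) (MvPowerSeries.constantCoeff x) := by
  simp only [Bf, mapS, WeierstrassCurve.map_b₂, WeierstrassCurve.map_b₄, WeierstrassCurve.map_b₆,
    map_add, map_mul, map_pow, map_ofNat]
  have h1 : ∀ k : K, MvPowerSeries.constantCoeff (algebraMap K (MvPowerSeries τ K) k) = k := by
    intro k
    rw [MvPowerSeries.algebraMap_apply]
    simp
  simp only [h1]

theorem ze3 (hZ : ZEH) (hI : Pool.Agent.Helper60.T3.S_IND) : Pool.Agent.Helper68.T3.ZE3 := by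
  intro D0
  obtain ⟨η, hη, hI⟩ := hI D0
  obtain ⟨h0, hh0⟩ := exists_nat_gt (1 / η)
  have hh1 : 0 < (h0 : ℝ) := (by positivity : (0 : ℝ) < 1 / η).trans hh0
  have hh2 : 1 ≤ h0 := by
    have : 0 < h0 := by exact_mod_cast hh1
    omega
  refine ⟨h0, hh2, ?_⟩
  intro K _ _ σ _ _ W hW C0 hC0 M CA hM hCA
  obtain ⟨D', C', K1, hC', hZ⟩ := hZ K σ W hW M D0 C0 CA hM hC0 hCA
  refine ⟨max D' D0, max C' C0, K1, le_max_of_le_left hC', ?_⟩
  intro i' i0 e c ξ ψ x0 ψ0 g2 g0 X Ψ hi hc hint hhs hsup hT hψ hψ0 hg2 hg0 hd2 hd0 hp2 hp0 he2 he0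
    hNN hK1 hK2
  have hq : (0 : ℝ) ≤ 4 ^ e 0 / 4 ^ e 1 := by positivity
  have hm : ∀ {I : Finset σ} {r : ℝ} {x : σ → K}, 0 ≤ r → Lo I D' (C' * r) x →
      Lo I (max D' D0) (max C' C0 * r) x := fun hr h =>
    lo_mono (le_max_left _ _) (mul_le_mul_of_nonneg_right (le_max_left _ _) hr) h
  by_cases h2 : degreeOf i' g2 = 0
  · refine Or.inr (Or.inl ⟨g2, hg2.ne_zero, fun i => (hd2 i).trans (le_max_right _ _), ?_, he2,
      hp2.trans (mul_le_mul_of_nonneg_right (le_max_right _ _) hq)⟩)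
    intro i hi
    have : i = i' := by
      by_contra h
      exact hi (Finset.mem_erase.2 ⟨h, Finset.mem_univ _⟩)
    rw [this]
    exact h2
  by_cases h3 : degreeOf i' g0 = 0
  · refine Or.inr (Or.inr (Or.inl ⟨g0, hg0.ne_zero, fun i => (hd0 i).trans (le_max_right _ _), ?_,
      he0, hp0.trans (mul_le_mul_of_nonneg_right (le_max_right _ _) (by positivity))⟩))
    intro i hi
    have : i = i' := by
      by_contra h
      exact hi (Finset.mem_erase.2 ⟨h, Finset.mem_univ _⟩)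
    rw [this]
    exact h3
  have hxy : ∀ j i, ψ j i ^ 2 = Bf (W i) (ξ j i) ∧ ψ j i ≠ 0 := by
    intro j i
    refine ⟨?_, hψ j i⟩
    have h := congrArg MvPowerSeries.constantCoeff (hT.on j i)
    rw [map_pow, hT.cst, bf_map, hT.cX] at h
    exact h
  have hrow : ∀ α : Ax σ M (e 0), row c α ≠ 0 → INDH W M (e 1) i' g2 g0 (row c α) := by
    intro α hα Ω _ _ _ Y Φ Y0 Φ0 hY hY0 hYg hY0g hind
    refine hI K σ W hW g2 g0 i0 i' hi hg2 hg0 hd2 hd0 h2 h3 (ξ 1) x0 he2 he0 hNN M (e 1)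
      (row c α) hα ?_ Ω Y Φ Y0 Φ0 hY hY0 hYg hY0g hind
    intro β hβ
    have hs : Sup3 i' i0 h0 (two α β, fun _ => (0 : Fin 1)) := by
      by_contra h
      exact hβ (hsup _ h)
    obtain ⟨hs1, hs2⟩ := hs
    have ht : (two α β) 1 = β := rfl
    simp only [ht] at hs1 hs2
    refine ⟨hs1, ?_⟩
    have hs3 : ((β i0).1.val : ℝ) * h0 < 4 ^ e 1 := by exact_mod_cast hs2
    have hs4 : 1 < η * h0 := by
      rw [div_lt_iff₀ hη] at hh0
      linarith
    have hs5 : (0 : ℝ) ≤ ((β i0).1.val : ℝ) := Nat.cast_nonneg _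
    have hs6 : (0 : ℝ) < 4 ^ e 1 := by positivity
    nlinarith [mul_pos hη hs6, mul_nonneg hs5 hη.le]
  rcases hZ e c i' g2 g0 ξ ψ x0 ψ0 X Ψ hc hint hhs hT hxy hψ0 ⟨hd2, by omega, hp2⟩
    ⟨hd0, by omega, hp0⟩ he0 hrow hK2 hK1 with h | h | h | h
  · left
    obtain ⟨F, f1, f2, f3, f4⟩ := h
    exact ⟨F, f1, fun i => (f2 i).trans (le_max_left _ _), fun i hi => absurd (Finset.mem_univ i) hi,
      f3, f4.trans (le_max_left _ _)⟩
  · exact Or.inr (Or.inl (hm hq h))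
  · exact Or.inr (Or.inr (Or.inl (hm (by positivity) h)))
  · exact Or.inr (Or.inr (Or.inr h))

end Pool.Agent.Helper92.ZH.ZE3
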