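import Pool.Agent.Helper92.ZH.Goals
import Pool.Agent.Helper92.ZH.ZE3
import Pool.Agent.Helper92.ZH.NZF1
import Pool.Agent.Helper92.ZH.IXH
import Pool.Agent.Helper44.ZH.NRH
import Pool.Agent.Helper46.ZH.LOWH
import Pool.Agent.Helper34.ZH.RESE
import Pool.Agent.Helper28.ZH.ZEH
import Pool.Agent.Helper14.ZH.BRH
import Pool.Agent.Helper38.ZH.NQX2
import Pool.Agent.Helper41.ZH.SEPV
import Pool.Agent.Helper31.ZH.DETN
import Pool.Agent.Helper26.ZH.HT2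
import Pool.Agent.Helper13.ZH.SPZ
import Pool.Agent.Helper68.VN.Main

/-!
# Project T3 (MP_a41896_nt): the zero estimate ZEH, unconditional
-/

set_option autoImplicit false

namespace Pool.Agent.Helper92.ZH.Main

open Pool.Agent.Helper42.SG Pool.Agent.Helper68.VN
open Pool.Agent.Helper92.ZH

theorem th_NQX2 : NQX2 :=
  Pool.Agent.Helper38.ZH.NQX2.t
    Pool.Agent.Helper65.SG.th_FRPO
    (Pool.Agent.Helper14.VN.NBB.t_NBB Pool.Agent.Helper65.SG.th_FRPO t_NAB)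
    Pool.Agent.Helper75.VN.t_NWB Pool.Agent.Helper65.VN.NNB.t_NNB
    (Pool.Agent.Helper47.VN.NEB.t_NEB Pool.Agent.Helper65.VN.NNB.t_NNB)
    Pool.Agent.Helper57.VN.t_NVB Pool.Agent.Helper12.VN.NDB.t_NDB
    (Pool.Agent.Helper95.VN.t_NRB Pool.Agent.Helper65.SG.th_FRPO)
    Pool.Agent.Helper66.VN.NHB.t_NHB Pool.Agent.Helper71.SGT.t_NQH

theorem th_RESE : RESE :=
  Pool.Agent.Helper34.ZH.RESE.t Pool.Agent.Helper41.ZH.SEPV.t Pool.Agent.Helper31.ZH.DETN.t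
    Pool.Agent.Helper26.ZH.HT2.t Pool.Agent.Helper65.SG.th_FRPO

theorem th_LOWH : LOWH :=
  Pool.Agent.Helper46.ZH.LOWH.t th_NQX2 th_RESE Pool.Agent.Helper13.ZH.SPZ.t

theorem th_NRH : NRH :=
  Pool.Agent.Helper44.ZH.NRH.t th_NQX2 th_RESE
    (Pool.Agent.Helper92.ZH.NZF1.t Pool.Agent.Helper65.SG.th_NZV) th_LOWH

theorem th_ZEH : ZEH :=
  Pool.Agent.Helper28.ZH.ZEH.t th_NRH
    (Pool.Agent.Helper92.ZH.IXH.t Pool.Agent.Helper65.VN.TAYX.t_TAYX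
      Pool.Agent.Helper38.VN.QIXB.t_QIXB)
    Pool.Agent.Helper7.VN.t_WRZ Pool.Agent.Helper14.ZH.BRH.t

/-- helper68's form of the zero estimate, from helper60's IND only. -/
theorem th_ZE3 (hI : Pool.Agent.Helper60.T3.S_IND) : Pool.Agent.Helper68.T3.ZE3 :=
  Pool.Agent.Helper92.ZH.ZE3.ze3 th_ZEH hI

end Pool.Agent.Helper92.ZH.Main
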