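import Pool.Agent.Helper68.T3.Defs

/-!
# MP_a41896_nt, full case, theorem P3: the zero estimate (two blocks `z = x_(0)` in `A`, `x_2 = x_(1)` on the hypersurface
`g2 = 0`, the constant point `x0` on the hypersurface `g0 = 0`)

The functions are those of `Helper68/VN/Defs.lean` with `n = 2` blocks and `δ = 1`: block `0` is the point `z` (exponent `e 0`, the
larger one), block `1` is the point `x_2` (exponent `e 1`).  `i'` is the coordinate which is algebraic over the others (the same for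
`g2` and `g0`).  The only input about the surfaces is the hypothesis `INDH` (independence of the block functions on
`{g2 = 0} × {g0 = 0}`).

All goals are independent (named goals may be hypotheses of others as indicated).
-/

set_option autoImplicit false

open MvPolynomial

namespace Pool.Agent.Helper92.ZH

open WeierstrassCurve Height
open Pool.Agent.Helper29.BL Pool.Agent.Helper92.Ru Pool.Agent.Helper42.SG
open Pool.Agent.Helper65.SG (NPol FRPO NQH)
open Pool.Agent.Helper68.VN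
open Pool.Agent.Helper68.T3 (TayW)
open Pool.Agent.Helper60.HC (Lo)

noncomputable section

/-! ## Definitions -/

section defs

variable {K : Type} [Field K] {σ : Type} [Fintype σ]

/-- the value of the array `a` of one block (law `false`) at a point -/
def val1 {A : Type} [CommRing A] [Algebra K A] (W : σ → Affine K) (M e : ℕ) [DecidableEq σ]
    (a : Ax σ M e → A) (X Ψ X0 Ψ0 : σ → A) : A :=
  ∑ α : Ax σ M e, a α * blkB (mapS A W) M e (fun _ => false) X Ψ X0 Ψ0 α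

/-- `g` has degrees `≤ D`, involves `X_i'`, and has height `≤ A` -/
structure Gd [NumberField K] (D : ℕ) (A : ℝ) (i' : σ) (g : MvPolynomial σ K) : Prop where
  deg : ∀ i, g.degreeOf i ≤ D
  pos : 1 ≤ g.degreeOf i'
  ht : Real.log (PH g) ≤ A

/-- independence: the function with the array `a` does not vanish at the generic points of `{g2 = 0} × {g0 = 0}` (all
components, all signs) -/
def INDH [DecidableEq σ] (W : σ → Affine K) (M e : ℕ) (i' : σ) (g2 g0 : MvPolynomial σ K)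
    (a : Ax σ M e → K) : Prop :=
  ∀ (Ω : Type) [Field Ω] [Algebra K Ω] [IsAlgClosed Ω] (X Ψ X0 Ψ0 : σ → Ω),
    (∀ i, Ψ i ^ 2 = Bf (mapS Ω W i) (X i)) → (∀ i, Ψ0 i ^ 2 = Bf (mapS Ω W i) (X0 i)) →
    aeval X g2 = 0 → aeval X0 g0 = 0 →
    AlgebraicIndependent K
      (Sum.elim (fun i : {i : σ // i ≠ i'} => X i.1) (fun i : {i : σ // i ≠ i'} => X0 i.1)) →
    val1 W M e (fun α => algebraMap K Ω (a α)) X Ψ X0 Ψ0 ≠ 0

/-- the pair of the indices of the two blocks -/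
def two {M : ℕ} {e : Fin 2 → ℕ} (α : Ax σ M (e 0)) (β : Ax σ M (e 1)) :
    ∀ j : Fin 2, Ax σ M (e j) :=
  Fin.cons α (Fin.cons β fun i => i.elim0)

/-- the row of `c` with the index `α` in the block `0` (an array for the block `1`) -/
def row {M : ℕ} {e : Fin 2 → ℕ} (c : Ix σ 2 M 1 e → K) (α : Ax σ M (e 0)) :
    Ax σ M (e 1) → K := fun β => c (two α β, fun _ => 0)

/-- the polynomial `F` as a polynomial in the variable `h0` over the polynomials in the other variables -/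
def sepV {V : Type} [DecidableEq V] (h0 : V) :
    MvPolynomial V K →ₐ[K] Polynomial (MvPolynomial V K) :=
  aeval (fun h => if h = h0 then Polynomial.X else Polynomial.C (X h))

end defs

/-! ## The norm over the signs -/

/-- **NQX2**: the norm polynomial with its product formula. As NQX (landed: `Pool/Agent/Helper38/VN/NQX.lean`): there `Q = redV (cv W) (QhB ..)`, the degree and height bounds are proved for this `Q`, and `aeval_redV` is the product formula.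
Hypotheses allowed: those of NQX (NZHB, FRPO, NBB, NWB, NNB, NEB, NVB, NDB, NRB, NHB, NQH, all theorems `th_*` in `Pool/Agent/Helper68/VN/Main.lean`). -/
def NQX2 : Prop :=
  ∀ (K : Type) [Field K] [NumberField K] (σ : Type) [Fintype σ] [DecidableEq σ]
    (W : σ → Affine K), ∀ n M δ : ℕ, 1 ≤ n → 1 ≤ M → 1 ≤ δ →
      ∃ C : ℝ, 0 ≤ C ∧ ∀ (e : Fin n → ℕ) (c : Ix σ n M δ e → K) (A : ℝ), 0 ≤ A →
      (∀ α, IsIntegral ℤ (c α)) → (∀ α, NumberField.house (c α) ≤ Real.exp A) →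
      ∃ Q : MvPolynomial ((Fin n × σ) ⊕ σ) K, (∀ h, Q.degreeOf h ≤ ddB σ n M δ e h) ∧
        Real.log (PH Q) ≤ C * (sqB e + A) ∧
        ∀ (A : Type) [CommRing A] [Algebra K A] (X Ψ : Fin n → σ → A) (X0 Ψ0 : σ → A),
          OnB W X Ψ X0 Ψ0 →
            aeval (Sum.elim (fun h : Fin n × σ => X h.1 h.2) X0) Q =
              ∏ ε : Fin n × σ → ℤˣ,
                P0B W n M δ e c X (fun j i => (((ε (j, i) : ℤˣ) : ℤ) : A) * Ψ j i) X0 Ψ0

/-! ## Elimination of one variable by a resultant -/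

/-- **SEPV**: properties of `sepV`. No hypotheses.
PROOF. `sepV h0 (monomial m c) = C (monomial (m.erase h0) c) * X^(m h0)` (`Finsupp.erase`), so `coeff m ((sepV h0 F).coeff k) = if m h0 = 0 then coeff (m + single h0 k) F else 0`
(on monomials, then sums). Everything else follows. (5): both sides are algebra homomorphisms in `F` (`MvPolynomial.algHom_ext`). -/
def SEPV : Prop :=
  ∀ (K : Type) [Field K] (V : Type) [Fintype V] [DecidableEq V] (h0 : V) (F : MvPolynomial V K),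
    (sepV h0 F).natDegree = F.degreeOf h0 ∧
    (∀ k m, coeff m ((sepV h0 F).coeff k) =
      if m h0 = 0 then coeff (m + Finsupp.single h0 k) F else 0) ∧
    (∀ k h, ((sepV h0 F).coeff k).degreeOf h ≤ F.degreeOf h) ∧
    (∀ k, ((sepV h0 F).coeff k).degreeOf h0 = 0) ∧
    (∀ (A : Type) [CommRing A] [Algebra K A] (x : V → A) (t : A),
      ((sepV h0 F).map (aeval x : MvPolynomial V K →ₐ[K] A).toRingHom).eval t =
        aeval (Function.update x h0 t) F) ∧
    (sepV h0 F).eval (X h0) = F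

/-- **DETN**: a determinant in a norm frame. No hypotheses.
PROOF. `det A = ∑_τ sign τ ∏_i A (τ i) i` (`Matrix.det_apply`), or the transpose. The non-zero terms are among the `τ` with `A i (τ i) ≠ 0` for all `i`; there are at most `∏_i k i` functions `f` with `A i (f i) ≠ 0` for all `i` (`Fintype.piFinset`), so at most `∏ k i` non-zero terms, each of norm `≤ ∏ r i` (`N (-x) T` from `N x T`:
`const`, `mul`, `v (-1) = 1`). Archimedean `v`: sum of at most `∏ k i` terms; nonarchimedean: maximum. (`cst v x = x` if `v` is not nonarchimedean, else `1`; see `Helper29.BL`. General sums: `Finset.induction_on` with `N 0 0` from `const 0`.) -/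
def DETN : Prop :=
  ∀ (K : Type) [Field K] (v : AbsoluteValue K ℝ) (A : Type) [CommRing A] [Algebra K A]
    (N : A → ℝ → Prop), NFr v N → ∀ (s : ℕ) (B : Matrix (Fin s) (Fin s) A) (k : Fin s → ℕ)
    (r : Fin s → ℝ), (∀ i, Nat.card {j : Fin s // B i j ≠ 0} ≤ k i) →
    (∀ i, 1 ≤ k i) → (∀ i, 0 ≤ r i) → (∀ i j, N (B i j) (r i)) →
    N B.det (∏ i, (cst v (k i) * r i))

/-- **HT2**: heights from local inequalities with two polynomials. No hypotheses (HeightLocal `Helper92.Ru.HeightLocal`, landed, is the version with one family; apply the same proof, or apply it to the family `y_j^a z_l^b`: not needed if the `PS`/`FS` calculus of `Helper29.BL` is used: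
`log PH R = PS (log max |coeff|)`, `PS_mono`, `PS_add`, `PS_log_iSup`). `cst v c` contributes `[K:ℚ] log c`. -/
def HT2 : Prop :=
  ∀ (K : Type) [Field K] [NumberField K] (V : Type) (R g Q : MvPolynomial V K) (a b : ℕ)
    (c : ℝ), R ≠ 0 → g ≠ 0 → Q ≠ 0 → 1 ≤ c →
    (∀ v : AbsoluteValue K ℝ, v ∈ AdmissibleAbsValues.archAbsVal ∨
        v ∈ AdmissibleAbsValues.nonarchAbsVal → ∀ m,
      v (coeff m R) ≤ cst v c * (⨆ m : g.support, v (coeff m.1 g)) ^ a *
        (⨆ m : Q.support, v (coeff m.1 Q)) ^ b) →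
    Real.log (PH R) ≤ Module.finrank ℚ K * Real.log c + a * Real.log (PH g) + b * Real.log (PH Q)

/-- **RESE** (elimination of the variable `h0` from `g` and `Q`). Hypotheses allowed: SEPV, DETN, HT2, FRPO.
PROOF. `D := g.degreeOf h0 ≥ 1`, `D ≤ D0`. `R := Polynomial.resultant (sepV h0 g) (sepV h0 Q) D N0`. (If `Q = 0` then `R = 0` as `D ≥ 1` and everything is trivial.)
DEGREES: `resultant` is the determinant of the Sylvester matrix (Mathlib `Polynomial.sylvester`, `resultant`), which has `N0` columns (rows) with coefficients of `sepV h0 g` (at most `D + 1` non-zero entries) and `D` with coefficients of `sepV h0 Q` (at most `N0 + 1` non-zero ones); `degreeOf h` of a determinant is at most the sum over the columns of the bounds (`degreeOf_sum_le`-type, as WronDeg `Helper92.Ru`). `degreeOf h0`: all entries have degree `0`.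
HEIGHT: frame `NPol v` (FRPO). A coefficient polynomial of `sepV h0 g` has at most `(D0+1)^|V|` monomials, coefficients `≤ G = ⨆ v (coeff g)`, so `NPol v (..) (cst v ((D0+1)^|V|) * G)`; the same for `Q` with `(N+1)^|V|`. DETN (for the transpose if necessary): `NPol v R ((cst v (D0+1) cst v ((D0+1)^|V|) G)^N0 (cst v (N0+1) cst v ((N+1)^|V|) H)^D)`; coefficients by FRPO, HT2 with
`c = ((D0+1)^(|V|+1))^N0 ((N+1)^(|V|+1))^D` (if `R ≠ 0`); `log c ≤ (|V|+1)(D0 + D0) N` because `log (x+1) ≤ x`; `D log PH Q ≤ D0 log PH Q` (`PH ≥ 1`).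
MEMBERSHIP: `Polynomial.exists_mul_add_mul_eq_C_resultant` over `MvPolynomial V K`, evaluated at `T = X h0` (SEPV, last part).
NON-VANISHING: `resultant_map_map`: `aeval x R = resultant p q D N0` with `p = (sepV h0 g).map (aeval x)`, `q = (sepV h0 Q).map ..`. The leading coefficient `l` of `sepV h0 g` is a non-zero polynomial with degrees `≤ g.degreeOf h` and `degreeOf h0 = 0`, so `aeval x l ≠ 0` and `p` has degree `D`.
`Ω` is algebraically closed, `p` splits: `Polynomial.resultant_eq_prod_eval`: the resultant is `lead^N0 * ∏_(roots t of p) q(t)` up to sign, all `q(t) ≠ 0` by the hypothesis (SEPV, part 5). -/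
def RESE : Prop :=
  ∀ (K : Type) [Field K] [NumberField K] (V : Type) [Fintype V] [DecidableEq V] (D0 : ℕ),
    ∃ C : ℝ, 0 ≤ C ∧ ∀ (h0 : V) (g Q : MvPolynomial V K) (N0 N : ℕ),
      (∀ h, g.degreeOf h ≤ D0) → 1 ≤ g.degreeOf h0 → Q.degreeOf h0 ≤ N0 → N0 ≤ N → 1 ≤ N →
      (∀ h, Q.degreeOf h ≤ N) →
      ∃ R : MvPolynomial V K, R.degreeOf h0 = 0 ∧
        (∀ h, R.degreeOf h ≤ N0 * g.degreeOf h + D0 * Q.degreeOf h) ∧
        (R ≠ 0 → Real.log (PH R) ≤
          N0 * Real.log (PH g) + D0 * Real.log (PH Q) + C * N) ∧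
        (∃ a b : MvPolynomial V K, R = a * g + b * Q) ∧
        ∀ (Ω : Type) [Field Ω] [Algebra K Ω] [IsAlgClosed Ω] (x : V → Ω),
          (∀ p : MvPolynomial V K, p ≠ 0 → (∀ h, p.degreeOf h ≤ g.degreeOf h) →
            p.degreeOf h0 = 0 → aeval x p ≠ 0) →
          (∀ t : Ω, aeval (Function.update x h0 t) g = 0 →
            aeval (Function.update x h0 t) Q ≠ 0) → aeval x R ≠ 0

/-! ## Non-vanishing -/

/-- **NZF1**: one block at the point `(X0, Ψ0)`, finitely many arrays. Hypothesis allowed: NZV. As NZHB (landed: `Pool/Agent/Helper31/VN/NZHB.lean`, with `nzt_choice` of `Pool/Agent/Helper60/SG2/NZFT.lean`, which allows a finite family of arrays). -/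
def NZF1 : Prop :=
  ∀ (K : Type) [Field K] [NumberField K] (σ : Type) [Fintype σ] [DecidableEq σ]
    (W : σ → Affine K), (∀ i, (W i).IsElliptic) →
    ∀ (M e : ℕ) (Ω : Type) [Field Ω] [Algebra K Ω] [IsAlgClosed Ω] (X0 Ψ0 : σ → Ω),
      (∀ i, Ψ0 i ^ 2 = Bf (mapS Ω W i) (X0 i)) →
      ∀ (ι : Type) [Finite ι] (a : ι → Ax σ M e → Ω), (∀ k, a k ≠ 0) →
      ∃ X Ψ : σ → Ω, (∀ i, Ψ i ^ 2 = Bf (mapS Ω W i) (X i)) ∧ ∀ (k : ι) (ε : σ → ℤˣ),
        val1 W M e (a k) X (fun i => (((ε i : ℤˣ) : ℤ) : Ω) * Ψ i) X0 Ψ0 ≠ 0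

/-- **SPZ**: a non-zero polynomial which vanishes identically at `X_τ = η`: a coefficient is a relation for `η`. No hypotheses.
PROOF. For `m : σ →₀ ℕ` let `A_m ∈ K[X_τ]` be the coefficient of `X_σ^m`: `spT η R = ∑_m C (eval η A_m) * X^m`, so all `eval η A_m = 0`; choose `m` with `A_m ≠ 0`. Its coefficients are some of the coefficients of `R` (`log PH`: as in the proof of WRZ, `Pool/Agent/Helper7/VN/WRZ.lean`, or ROWB). -/
def SPZ : Prop :=
  ∀ (K : Type) [Field K] [NumberField K] (σ τ : Type) [Fintype σ] [DecidableEq σ] [Fintype τ]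
    [DecidableEq τ] (R : MvPolynomial (σ ⊕ τ) K) (η : τ → K), R ≠ 0 → spT η R = 0 →
    ∃ p : MvPolynomial τ K, p ≠ 0 ∧ (∀ t, p.degreeOf t ≤ R.degreeOf (Sum.inr t)) ∧
      Real.log (PH p) ≤ Real.log (PH R) ∧ eval η p = 0

/-- **LOWH**: if the function of a non-zero array vanishes at a generic point of `g2 = 0` and the constant point `x0`, then `x0` is low in the variables `≠ i'`. Hypotheses allowed: NQX2, RESE, SPZ.
PROOF. `q1 = 4^e1 ≤ q0 = 4^e0`. `V := (Fin 1 × σ) ⊕ σ` (`VV σ 1`), `h2 := inl (0, i')`, `h0 := inr i'`. NQX2 with `n = 1`, `δ = 1`, `e := fun _ => e1`, `c (α, β) := a (α 0)`: then `P0B W 1 M 1 e c X Ψ X0 Ψ0 = val1 W M e1 a (X 0) (Ψ 0) X0 Ψ0` (`Ix` with `n = δ = 1`: `Fintype.sum_prod_type`, `Equiv.funUnique`; `X0^0 = 1`). `A := CA q0`. `Q2`: degrees `≤ nsg (2M+1) q1` in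
`inl`, `≤ nsg (2M+1)` in `inr`, `log PH Q2 ≤ C (q1 + CA q0)`.
`R1` := RESE for `h0 = inr i'`, `g := rename inr g0`, `Q := Q2`, `N0 = nsg (2M+1)`, `N = nsg (2M+1) q1`: `log PH R1 ≤ N0 C0 q0 + D0 log PH Q2 + C N ≤ C q0` (if `R1 ≠ 0`), degrees `≤ D0 nsg(2M+1) q1` in `inl`, `≤ N0 D0 + D0 nsg (2M+1)` in `inr`.
`R2` := RESE for `h2`, `g := rename (i ↦ inl (0,i)) g2`, `Q := R1`, `N0 = D0 nsg (2M+1) q1`: `log PH R2 ≤ N0 (C0 q0/q1) + D0 log PH R1 + C N ≤ C q0`; degree `0` in `h2` and in `h0` (`R1.degreeOf h0 = 0`, `(rename .. g2).degreeOf h0 = 0`), `≤ D0 (..)` in `inr`.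
`R2 ≠ 0`: let `Ω'` be an algebraic closure of the fraction field of `K[x_i, y_i : i ≠ i']`. At the point `x_(inl (0,i)) = x_i`, `x_(inr i) = y_i` (arbitrary for `i = i'`) use the last part of RESE twice: a non-zero `p` without `h2` and with degrees `≤` those of `rename g2` is a polynomial in the independent `x_i`, so its value is not zero; for `t` with `g2(x, t) = 0` we need
`R1(x, t, y) ≠ 0`: again RESE: for `s` with `g0(y, s) = 0` we need `Q2(x,t;y,s) ≠ 0`: it is the product of the `val1 .. (εΨ) ..` and each factor is not zero by INDH (choose square roots `Ψ, Ψ0` of `Bf`; `εΨ` are also square roots).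
`R2` VANISHES at `X_σ = X`, `X_τ = x0`: `R2 = a g2 + b R1 = a g2 + b (a' g0 + b' Q2)` and `g2(X) = 0`, `g0(x0) = 0`, `Q2(X; x0) = ∏ .. = 0` (the factor `ε = 1` is the given one). So `aeval X (spT x0 R2) = 0`, and `spT x0 R2` does not involve `(0, i')`, the other coordinates of `X` are algebraically independent: `spT x0 R2 = 0`. SPZ: `p`, which does not involve `i'`. -/
def LOWH : Prop :=
  ∀ (K : Type) [Field K] [NumberField K] (σ : Type) [Fintype σ] [DecidableEq σ]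
    (W : σ → Affine K), (∀ i, (W i).IsElliptic) → ∀ (M D0 : ℕ) (C0 CA : ℝ), 1 ≤ M → 0 ≤ C0 →
    0 ≤ CA → ∃ (D' : ℕ) (C' : ℝ), 0 ≤ C' ∧
      ∀ (e0 e1 : ℕ) (a : Ax σ M e1 → K) (i' : σ) (g2 g0 : MvPolynomial σ K) (x0 ψ0 : σ → K),
        e1 ≤ e0 → a ≠ 0 → (∀ α, IsIntegral ℤ (a α)) →
        (∀ α, NumberField.house (a α) ≤ Real.exp (CA * 4 ^ e0)) →
        Gd D0 (C0 * (4 ^ e0 / 4 ^ e1)) i' g2 → Gd D0 (C0 * 4 ^ e0) i' g0 → eval x0 g0 = 0 →
        (∀ i, ψ0 i ^ 2 = Bf (W i) (x0 i)) → INDH W M e1 i' g2 g0 a →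
        ∀ (Ω : Type) [Field Ω] [Algebra K Ω] [IsAlgClosed Ω] (X Ψ : σ → Ω),
          (∀ i, Ψ i ^ 2 = Bf (mapS Ω W i) (X i)) → aeval X g2 = 0 →
          AlgebraicIndependent K (fun i : {i : σ // i ≠ i'} => X i.1) →
          val1 W M e1 (fun α => algebraMap K Ω (a α)) X Ψ (cn Ω x0) (cn Ω ψ0) = 0 →
          Lo (Finset.univ.erase i') D' (C' * 4 ^ e0) x0

/-- **NRH**: the norm polynomial of P3. Hypotheses allowed: NQX2, RESE, NZF1, LOWH.
PROOF. NQX2 (`n = 2`, `δ = 1`, `A = CA q0`): `Q`. RESE with `V = (Fin 2 × σ) ⊕ σ`, `h0 = inl (1, i')`, `g := rename (i ↦ inl (1, i)) g2`, `N0 = nsg (2M+1) q1`, `N = nsg (4M+1) q0` (degrees: `ddB`): `R`. Degrees: `≤ N0 g.degreeOf h + D0 Q.degreeOf h`: in `inl (0, i)`: `≤ D0 nsg (2M+1) q0`; in `inl (1, i)`: `≤ N0 D0 + D0 nsg (2M+1) q1`; in `inr`: `≤ D0 nsg (4M+1)`; `w0` = a common constant `≥ 1`.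
Height: `N0 log PH g ≤ nsg (2M+1) q1 C0 q0/q1`, `D0 log PH Q ≤ D0 C (2 q0 + CA q0)`, `C N`. (If `R = 0`: this is excluded by `spc x0 R ≠ 0`.)
LAST PART: `R = a g + b Q`, at the point: `g2(X 1) = 0`, `aeval Q = ∏_ε P0B(..)`, the factor `ε = 1` is `P0B W .. X Ψ ..`.
`spc x0 R ≠ 0` or the first alternative: `Ω` := algebraic closure of the fraction field of `MvPolynomial {i // i ≠ i'} K`, `y_i` the generic coordinates (`i ≠ i'`), `y_i' := 0`. It is enough that `R` does not vanish at a point `(X_(0,i); y; x0)`. Let `k : ι` run through the pairs `(t, ε₁)`, `t ∈ Ω` a root of `g2(update y i' t)` (finitely many because the leading coefficient is `≠ 0` at `y`), `ε₁ : σ → ℤˣ`. Put `Y := update y i' t`, `Φ_i` a square root of `Bf (Y i)` (chosen for every `t`),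
and let `a_k (α₀) := ∑_(α₁) c(α₀, α₁) blkB(Y, ε₁ Φ; x0, ψ0)(α₁) = val1 W M (e 1) (row c α₀) Y (ε₁ Φ) (cn x0) (cn ψ0)`. If some `a_k = 0`: choose `α₀` with `row c α₀ ≠ 0`; LOWH gives the first alternative. Otherwise NZF1 (`Ω`, `X0 = cn x0`, `Ψ0 = cn ψ0`) gives `X`, `Ψ` with all `val1 W M (e 0) a_k X (ε₀Ψ) .. ≠ 0`, and this is `P0B W 2 M 1 e c` at `(X, ε₀Ψ), (Y, ε₁Φ)` (Fubini: `Ix σ 2 M 1 e`, `Fin 2`-tuples; `δ = 1`).
So `Q(X, Y; x0) = ∏_ε (..) ≠ 0` for every root `t`, and RESE (last part; the condition on `p`: independent coordinates `y`) gives `R(X, y; x0) ≠ 0`. `aeval (..) R = aeval (..) (spc x0 R)`. -/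
def NRH : Prop :=
  ∀ (K : Type) [Field K] [NumberField K] (σ : Type) [Fintype σ] [DecidableEq σ]
    (W : σ → Affine K), (∀ i, (W i).IsElliptic) → ∀ (M D0 : ℕ) (C0 CA : ℝ), 1 ≤ M → 0 ≤ C0 →
    0 ≤ CA → ∃ (D' w0 : ℕ) (C' : ℝ), 1 ≤ w0 ∧ 0 ≤ C' ∧
      ∀ (e : Fin 2 → ℕ) (c : Ix σ 2 M 1 e → K) (i' : σ) (g2 g0 : MvPolynomial σ K)
        (x0 ψ0 : σ → K), e 1 ≤ e 0 → c ≠ 0 → (∀ α, IsIntegral ℤ (c α)) →
        (∀ α, NumberField.house (c α) ≤ Real.exp (CA * 4 ^ e 0)) →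
        Gd D0 (C0 * (4 ^ e 0 / 4 ^ e 1)) i' g2 → Gd D0 (C0 * 4 ^ e 0) i' g0 → eval x0 g0 = 0 →
        (∀ i, ψ0 i ^ 2 = Bf (W i) (x0 i)) →
        (∀ α : Ax σ M (e 0), row c α ≠ 0 → INDH W M (e 1) i' g2 g0 (row c α)) →
        Lo (Finset.univ.erase i') D' (C' * 4 ^ e 0) x0 ∨
        ∃ R : MvPolynomial ((Fin 2 × σ) ⊕ σ) K, spc x0 R ≠ 0 ∧
          R.degreeOf (Sum.inl (1, i')) = 0 ∧
          (∀ h : Fin 2 × σ, R.degreeOf (Sum.inl h) ≤ w0 * 4 ^ e h.1) ∧
          (∀ i : σ, R.degreeOf (Sum.inr i) ≤ w0) ∧ Real.log (PH R) ≤ C' * 4 ^ e 0 ∧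
          ∀ (A : Type) [CommRing A] [Algebra K A] (X Ψ : Fin 2 → σ → A),
            OnB W X Ψ (cn A x0) (cn A ψ0) → aeval (X 1) g2 = 0 → ∃ g : A,
              aeval (Sum.elim (fun h : Fin 2 × σ => X h.1 h.2) (cn A x0)) R =
                P0B W 2 M 1 e c X Ψ (cn A x0) (cn A ψ0) * g

/-! ## Index, block Roth lemma -/

/-- **IXH** (the index). Hypotheses allowed: TAYX, QIXB (theorems of `Helper68.VN`).
PROOF. TAYX gives a standard Taylor expansion `(X', Ψ')` of the same points (`TayB`). `X' j i = X j i` for `(j, i) ≠ (1, i')` by the two `eqX`, and `Q` does not involve `(1, i')` (`degreeOf = 0`), so `aeval X' Q = aeval X Q = f * g` (`MvPolynomial.eval₂Hom_congr'`, `degreeOf_eq_zero_iff` / `vars`). QIXB. -/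
def IXH : Prop :=
  ∀ (K : Type) [Field K] [NumberField K] (σ : Type) [Fintype σ] [DecidableEq σ]
    (W : σ → Affine K) (i' : σ) (g2 : MvPolynomial σ K) (ξ ψ : Fin 2 → σ → K)
    (X Ψ : Fin 2 → σ → MvPowerSeries (Fin 2 × σ) K) (Q : MvPolynomial (Fin 2 × σ) K)
    (f g : MvPowerSeries (Fin 2 × σ) K) (d : Fin 2 × σ → ℕ) (θ : ℝ),
    TayW W ξ ψ i' g2 X Ψ → (∀ j i, ψ j i ^ 2 = Bf (W i) (ξ j i) ∧ ψ j i ≠ 0) →
    (∀ h, 1 ≤ d h) → Q.degreeOf (1, i') = 0 →
    aeval (fun h : Fin 2 × σ => X h.1 h.2) Q = f * g →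
    (∀ α, wt d α < θ → MvPowerSeries.coeff α f = 0) → IndGe d (fun h => ξ h.1 h.2) θ Q

/-- **BRH** (block Roth lemma, two blocks, the polynomial does not involve `(1, i')`). No hypotheses; from the landed `Pool.Agent.Helper92.PN.blockRothG` (`Pool/Agent/Helper92/PN/BlockRoth.lean`), which allows blocks of different sizes.
PROOF. `V' := {h : Fin 2 × σ // h ≠ (1, i')}`, `m = 2|σ| - 1`; a numbering `V' ≃ Fin m` which lists the block `0` first (e.g. `Fin (s) ⊕ Fin (s-1)`, or sort by `toLex`-order), `b h` = block (as a number `0` or `1`), monotone. `p = rename val p'` (`p'` on `V'`, because `p` does not involve `(1, i')`; `Pool.Agent.Helper32.SGA.ren`, `MvPolynomial.exists_rename_eq_of_vars_subset_range`), then rename by the numbering: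
`PH`, `degreeOf`, `IndGe` are invariant (lemmas in `Pool/Agent/Helper81/VN/BRU.lean`; for `IndGe` of `p'`: the support of `shiftP ξ p` is the image of that of `shiftP ξ' p'`). BR gives `h₀` and `f'` in the block of `h₀`; rename back: block `0`: `f'` involves only the `(0, i)`; block `1`: only the `(1, i)`, `i ≠ i'`. -/
def BRH : Prop :=
  ∀ (k : Type) [Field k] [NumberField k] (σ : Type) [Fintype σ] [DecidableEq σ]
    (ι : ℝ), 0 < ι → ∃ (D : ℕ) (Kc ω : ℝ), 1 ≤ Kc ∧ 0 < ω ∧ ω ≤ 1 ∧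
    ∀ (i' : σ) (d : Fin 2 → ℕ) (ξ : Fin 2 → σ → k) (H W : ℝ)
      (p : MvPolynomial (Fin 2 × σ) k), (∀ j, 1 ≤ d j ∧ (d j : ℝ) ≤ H) →
      (d 1 : ℝ) ≤ ω * d 0 → p ≠ 0 → p.degreeOf (1, i') = 0 → 0 < W →
      (∀ h, (p.degreeOf h : ℝ) ≤ d h.1 * W) → Real.log (PH p) ≤ H * W →
      IndGe (fun h : Fin 2 × σ => d h.1) (fun h => ξ h.1 h.2) (ι * W) p →
      (∃ f : MvPolynomial σ k, f ≠ 0 ∧ (∀ i, f.degreeOf i ≤ D) ∧ eval (ξ 0) f = 0 ∧
        d 0 * Real.log (PH f) ≤ Kc * H) ∨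
      ∃ f : MvPolynomial σ k, f ≠ 0 ∧ (∀ i, f.degreeOf i ≤ D) ∧ f.degreeOf i' = 0 ∧
        eval (ξ 1) f = 0 ∧ d 1 * Real.log (PH f) ≤ Kc * H

/-! ## The zero estimate -/

/-- **ZEH** (the zero estimate of P3). Hypotheses allowed: NRH, IXH, WRZ (landed, `Helper68.VN.th_WRZ`), BRH.
PROOF. As ZEB (landed: `Pool/Agent/Helper81/VN/ZEB.lean`). `q_j = 4 ^ e j`; `K1 q_1 ≤ q_0` and `K1 ≥ 1` give `e 1 ≤ e 0`. NRH: the first alternative is the third one here. Otherwise `R`. Suppose that all coefficients of weight `< 1` of `f := PT W 2 M 1 e c (fun _ _ => false) X Ψ x0 ψ0 = P0B W 2 M 1 e c X Ψ (cn x0) (cn ψ0)` vanish. `aeval X (spc x0 R) = f * g` (last part of NRH with `A` = power series, `OnB` from TayW and `hψ0`, `rel`), so by IXH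
`IndGe (q) ξ 1 (spc x0 R)` (`(spc x0 R).degreeOf (1, i') ≤ R.degreeOf (inl (1,i')) = 0`). WRZ (`τ = σ`, `D = w0`, `R = w0 q_0`, `ρ = K1 ≥ 2 s0`, `spc = spT`): `W ≠ 0`, degrees `≤ s0 R.degreeOf (inl h) ≤ q_(h.1) w1`, `w1 := s0 w0`, degree `0` in `(1, i')`, `log PH W ≤ s0 (C' + C w0) q_0 ≤ H w1` with `H := CH q_0`, `CH ≥ 1`, index `≥ 1/2 = ι w1`, `ι := 1/(2 w1)`.
BRH with `K1 ≥ 1/ω`: the first (`d 0 = q_0 = H / CH`: `log PH f ≤ Kc CH`) or the second alternative (`log PH f ≤ Kc CH q_0/q_1`). -/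
def ZEH : Prop :=
  ∀ (K : Type) [Field K] [NumberField K] (σ : Type) [Fintype σ] [DecidableEq σ]
    (W : σ → Affine K), (∀ i, (W i).IsElliptic) → ∀ (M D0 : ℕ) (C0 CA : ℝ), 1 ≤ M → 0 ≤ C0 →
    0 ≤ CA → ∃ (D' : ℕ) (C' K1 : ℝ), 0 ≤ C' ∧
      ∀ (e : Fin 2 → ℕ) (c : Ix σ 2 M 1 e → K) (i' : σ) (g2 g0 : MvPolynomial σ K)
        (ξ ψ : Fin 2 → σ → K) (x0 ψ0 : σ → K)
        (X Ψ : Fin 2 → σ → MvPowerSeries (Fin 2 × σ) K), c ≠ 0 → (∀ α, IsIntegral ℤ (c α)) →
        (∀ α, NumberField.house (c α) ≤ Real.exp (CA * 4 ^ e 0)) → TayW W ξ ψ i' g2 X Ψ →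
        (∀ j i, ψ j i ^ 2 = Bf (W i) (ξ j i) ∧ ψ j i ≠ 0) →
        (∀ i, ψ0 i ^ 2 = Bf (W i) (x0 i)) →
        Gd D0 (C0 * (4 ^ e 0 / 4 ^ e 1)) i' g2 → Gd D0 (C0 * 4 ^ e 0) i' g0 → eval x0 g0 = 0 →
        (∀ α : Ax σ M (e 0), row c α ≠ 0 → INDH W M (e 1) i' g2 g0 (row c α)) →
        K1 * 4 ^ e 1 ≤ 4 ^ e 0 → K1 ≤ 4 ^ e 1 →
        LowS D' C' (ξ 0) ∨ Lo (Finset.univ.erase i') D' (C' * (4 ^ e 0 / 4 ^ e 1)) (ξ 1) ∨
        Lo (Finset.univ.erase i') D' (C' * 4 ^ e 0) x0 ∨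
        ∃ α : Fin 2 × σ →₀ ℕ, wt (fun h : Fin 2 × σ => 4 ^ e h.1) α < 1 ∧
          MvPowerSeries.coeff α (PT W 2 M 1 e c (fun _ _ => false) X Ψ x0 ψ0) ≠ 0

end

end Pool.Agent.Helper92.ZH
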